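import Pool.Agent.U882.RS.Per2
import Pool.Agent.Y504.CO.SS

/-!
# Stable diffeomorphisms: the periodic points are nondegenerate with an exponential margin

`DiffM n N r` is `Diff^r(N)` and `strongTop n N r` its `C^r` topology, `V n` is `ℝⁿ`
(`Pool/Agent/H718R2/G0.lean`), `OmegaStable`: `Ω`-stability (`Pool/Agent/TH80/OMS/Defs.lean`).
`ChartLip n N`: the distance of `N` is compatible with the smooth structure (good charts are
bi-Lipschitz near their centres, for instance a Riemannian distance; `Pool/Agent/Y368/CL/Met.lean`).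
-/

set_option autoImplicit false

open scoped Manifold ContDiff Topology

universe u

namespace Pool.Agent.Results.MP_4a0782_an.LinearMargins

open Pool.Agent.H718R2.G Pool.Agent.TH80.OMS Pool.Agent.Y368.CL

/-- `F` is structurally stable in `Diff^r(N)`: all `G` in a neighbourhood of `F` are topologically
conjugate to `F`. -/
def StructStable (n : ℕ) (N : Type u) [TopologicalSpace N] [ChartedSpace (V n) N] (r : ℕ∞)
    (F : DiffM n N r) : Prop :=
  ∃ U : Set (DiffM n N r), IsOpen[strongTop n N r] U ∧ F ∈ U ∧ ∀ G ∈ U,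
    ∃ h : N ≃ₜ N, ∀ x, h (F x) = G (h x)

/-- The multipliers of the point `p`, `F^m(p) = p`, have a distance at least `γ` from the unit circle, on
the logarithmic scale: in every chart `ψ` at `p` the map `F^m` has a derivative `D` at `p`, and
`|log |μ|| ≥ γ` for all complex eigenvalues `μ` of `D`. -/
def MarginAt (n : ℕ) {N : Type u} [TopologicalSpace N] [ChartedSpace (V n) N] (F : N → N) (m : ℕ)
    (p : N) (γ : ℝ) : Prop :=
  ∀ ψ ∈ IsManifold.maximalAtlas (𝓡 n) ∞ N, p ∈ ψ.source →
    ∃ D : V n →L[ℝ] V n, HasFDerivAt (fun v => ψ (F^[m] (ψ.symm v))) D (ψ p) ∧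
      ∀ μ : ℂ, ((LinearMap.charpoly (D : V n →ₗ[ℝ] V n)).map (algebraMap ℝ ℂ)).IsRoot μ →
        γ ≤ |Real.log ‖μ‖|

/-- Let `N` be a closed manifold, `2 ≤ r ≤ ∞`, and let `F ∈ Diff^r(N)` be structurally stable or only
`Ω`-stable. There is a constant `C > 0` such that for all `m ≥ 1`:
(1) `|log |μ|| ≥ exp(- C m)` for all multipliers `μ` (eigenvalues of the derivative of `F^m`) of the
periodic points with the least period `m`;
(2) different points with `F^m(x) = x` have a distance at least `exp(- C m)`.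
(That is, the hyperbolicity of the periodic points, which is qualitative in the definition, decays at
most exponentially with the period.) -/
theorem result {n : ℕ} {N : Type u} [MetricSpace N] [CompactSpace N] [ChartedSpace (V n) N]
    [IsManifold (𝓡 n) ∞ N] (hN : ChartLip n N) (r : ℕ∞) (hr : 2 ≤ r) (F : DiffM n N r)
    (hs : StructStable n N r F ∨ OmegaStable n N r F) :
    ∃ C : ℝ, 0 < C ∧ ∀ m : ℕ, 1 ≤ m →
      (∀ p, Function.minimalPeriod F p = m → MarginAt n F m p (Real.exp (-(C * m)))) ∧
      ∀ x y, F^[m] x = x → F^[m] y = y → x ≠ y → Real.exp (-(C * m)) ≤ dist x y := by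
  have hF : OmegaStable n N r F := by
    rcases hs with ⟨U, hU, hFU, h⟩ | h
    · refine ⟨U, hU, hFU, fun G hG => ?_⟩
      obtain ⟨e, he⟩ := h G hG
      exact Pool.Agent.Y504.CO.omegaConj_of_conj e he
    · exact h
  obtain ⟨C, hC, h1, h2⟩ := Pool.Agent.U882.RS.margins hr hN F hF
  refine ⟨C, hC, fun m hm => ⟨fun p hp ψ hψ hpψ => ?_, fun x y => h1 m x y hm⟩⟩
  have hr1 : (1 : ℕ∞) ≤ r := le_trans (by norm_num) hr
  have hpm : F^[m] p = p := by rw [← hp]; exact Function.iterate_minimalPeriod
  have hit : ContMDiff (𝓡 n) (𝓡 n) r (F^[m]) := by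
    clear hpm hp hm
    induction m with
    | zero => exact contMDiff_id
    | succ m ih =>
      rw [Function.iterate_succ']
      exact F.contMDiff.comp ih
  have hd := Pool.Agent.Y368.CL.diff_charts hr1 (F^[m]) hit hψ hψ (x := ψ p) (ψ.map_source hpψ)
    (by rw [ψ.left_inv hpψ, hpm]; exact hpψ)
  exact ⟨_, hd.hasFDerivAt, h2 m p hm hp ψ hψ hpψ _ hd.hasFDerivAt⟩

end Pool.Agent.Results.MP_4a0782_an.LinearMargins
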