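import Pool.Agent.U882.RS.Low3
import Pool.Agent.Y504.CO.SS

/-!
# Stable diffeomorphisms: orbits and pseudo-orbits of low complexity are eventually periodic

`DiffM n N r` is `Diff^r(N)` and `strongTop n N r` its `C^r` topology, `V n` is `ℝⁿ`
(`Pool/Agent/H718R2/G0.lean`), `OmegaStable`: `Ω`-stability (`Pool/Agent/TH80/OMS/Defs.lean`).
`ChartLip n N`: the distance of `N` is compatible with the smooth structure (good charts are
bi-Lipschitz near their centres, for instance a Riemannian distance; `Pool/Agent/Y368/CL/Met.lean`).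

The theorem is the analogue, for the orbits of stable diffeomorphisms at the scale `exp(- a s)`, of the
theorem of Morse and Hedlund: a sequence with at most `s` words of length `s` is eventually periodic.
Proof: two of the first `s + 1` points are close, so there is a periodic orbit of period at most `s`
which is close to the segment between them (`MP_4a0782_an.PeriodicShadowing`); on its way out of the
neighbourhood of this periodic orbit the pseudo-orbit would be in `s + 1` different balls, because the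
points of a periodic orbit of period `m` have distances at least `exp(- C m)` from each other
(`MP_814647_an.Resolution`). The limit points of the orbit are fixed by `F^m` by the rigidity theorem
`MP_814647_an.RigidSets`.
-/

set_option autoImplicit false

open scoped Manifold ContDiff Topology
open Filter

universe u

namespace Pool.Agent.Results.MP_4a0782_an.OrbitComplexity

open Pool.Agent.H718R2.G Pool.Agent.TH80.OMS Pool.Agent.Y368.CL

/-- `F` is structurally stable in `Diff^r(N)`: all `G` in a neighbourhood of `F` are topologically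
conjugate to `F`. -/
def StructStable (n : ℕ) (N : Type u) [TopologicalSpace N] [ChartedSpace (V n) N] (r : ℕ∞)
    (F : DiffM n N r) : Prop :=
  ∃ U : Set (DiffM n N r), IsOpen[strongTop n N r] U ∧ F ∈ U ∧ ∀ G ∈ U,
    ∃ h : N ≃ₜ N, ∀ x, h (F x) = G (h x)

/-- `x 0, x 1, …` is a pseudo-orbit of `F` of length `L ≤ ∞` with jumps `≤ ε`. -/
def PseudoOrbit {N : Type u} [MetricSpace N] (F : N → N) (L : ℕ∞) (ε : ℝ) (x : ℕ → N) : Prop :=
  ∀ i : ℕ, (i : ℕ∞) < L → dist (F (x i)) (x (i + 1)) ≤ ε

/-- The points `x i`, `0 ≤ i ≤ L`, lie in `s` balls of radius `ε`. -/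
def InBalls {N : Type u} [MetricSpace N] (L : ℕ∞) (s : ℕ) (ε : ℝ) (x : ℕ → N) : Prop :=
  ∃ c : Fin s → N, ∀ i : ℕ, (i : ℕ∞) ≤ L → ∃ j, dist (x i) (c j) < ε

/-- `p` is a periodic point of period at most `s`. -/
def PerLe {N : Type u} (F : N → N) (s : ℕ) (p : N) : Prop :=
  ∃ m : ℕ, 1 ≤ m ∧ m ≤ s ∧ F^[m] p = p

/-- The forward orbit of `x` is asymptotic to the forward orbit of `p`, that is `x ∈ W^s(p)`. -/
def Asymptotic {N : Type u} [MetricSpace N] (F : N → N) (p x : N) : Prop :=
  Tendsto (fun i : ℕ => dist (F^[i] p) (F^[i] x)) atTop (𝓝 0)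

/-- Let `N` be a closed manifold, `2 ≤ r ≤ ∞`, and let `F ∈ Diff^r(N)` be structurally stable or only
`Ω`-stable. There are constants `a, b > 0` such that:
1. every pseudo-orbit, of any length `L` with `s ≤ L ≤ ∞`, with jumps at most `ε ≤ exp(- a s)`, which
   lies in `s` balls of radius `ε`, is shadowed with the accuracy `exp(b s) ε` by the orbit of exactly
   one periodic point of period at most `s`;
2. if the forward orbit of `x` lies in `s` balls of a radius `ε ≤ exp(- a s)`, then `x` is in the stable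
   set of a periodic point of period at most `s`;
3. the forward orbit of every point `x` which is in no stable set of a periodic point has the
   complexity at least `(1/a) log(1/ε)` for all `ε > 0`: it cannot be covered by fewer balls of radius
   `ε`. -/
theorem result {n : ℕ} {N : Type u} [MetricSpace N] [CompactSpace N] [ChartedSpace (V n) N]
    [IsManifold (𝓡 n) ∞ N] (hN : ChartLip n N) (r : ℕ∞) (hr : 2 ≤ r) (F : DiffM n N r)
    (hs : StructStable n N r F ∨ OmegaStable n N r F) :
    ∃ a b : ℝ, 0 < a ∧ 0 < b ∧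
      (∀ (s : ℕ) (L : ℕ∞) (ε : ℝ) (x : ℕ → N), 1 ≤ s → (s : ℕ∞) ≤ L →
        ε ≤ Real.exp (-(a * s)) → PseudoOrbit F L ε x → InBalls L s ε x →
        ∃! p, PerLe F s p ∧
          ∀ i : ℕ, (i : ℕ∞) ≤ L → dist (F^[i] p) (x i) ≤ Real.exp (b * s) * ε) ∧
      (∀ (s : ℕ) (ε : ℝ) (x : N), ε ≤ Real.exp (-(a * s)) →
        InBalls ⊤ s ε (fun i => F^[i] x) → ∃ p, PerLe F s p ∧ Asymptotic F p x) ∧
      ∀ x : N, (∀ (s : ℕ) (p : N), PerLe F s p → ¬ Asymptotic F p x) →
        ∀ (s : ℕ) (ε : ℝ), 0 < ε → InBalls ⊤ s ε (fun i => F^[i] x) →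
          1 / a * Real.log (1 / ε) ≤ s := by
  have hF : OmegaStable n N r F := by
    rcases hs with ⟨U, hU, hFU, h⟩ | h
    · refine ⟨U, hU, hFU, fun G hG => ?_⟩
      obtain ⟨e, he⟩ := h G hG
      exact Pool.Agent.Y504.CO.omegaConj_of_conj e he
    · exact h
  obtain ⟨a, b, ha, hb, h1, h2⟩ := Pool.Agent.U882.RS.low_complexity hr hN F hF
  have h3 : ∀ (s : ℕ) (ε : ℝ) (x : N), ε ≤ Real.exp (-(a * s)) →
      InBalls ⊤ s ε (fun i => F^[i] x) → ∃ p, PerLe F s p ∧ Asymptotic F p x := by
    intro s ε x hε hx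
    obtain ⟨c, hc⟩ := hx
    obtain ⟨p, m, hm1, hm2, hp, ht⟩ := h2 s ε x hε ⟨c, by
      rintro _ ⟨i, rfl⟩
      exact hc i le_top⟩
    exact ⟨p, ⟨m, hm1, hm2, hp⟩, ht⟩
  refine ⟨a, b, ha, hb, ?_, h3, ?_⟩
  · intro s L ε x hs hsL hε hx hcov
    refine h1 s L ε x hs hsL hε hx ?_
    obtain ⟨c, hc⟩ := hcov
    refine ⟨c, ?_⟩
    rintro _ ⟨i, hi, rfl⟩
    exact hc i hi
  · intro x hx s ε hε hcov
    by_contra hcon
    rw [not_le] at hcon
    have h4 : (a * s : ℝ) < Real.log (1 / ε) := by
      have h5 : a * s < a * (1 / a * Real.log (1 / ε)) := mul_lt_mul_of_pos_left hcon ha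
      rwa [← mul_assoc, mul_one_div_cancel ha.ne', one_mul] at h5
    have h6 : ε ≤ Real.exp (-(a * s)) := by
      rw [one_div, Real.log_inv] at h4
      rw [← Real.exp_log hε]
      apply Real.exp_le_exp.2
      linarith
    obtain ⟨p, hp, hpx⟩ := h3 s ε x h6 hcov
    exact hx s p hp hpx

end Pool.Agent.Results.MP_4a0782_an.OrbitComplexity
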