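import Pool.Agent.U882.RS.Per1
import Pool.Agent.Y504.CO.SS

/-!
# Stable diffeomorphisms: periodic pseudo-orbits with exponentially small errors are shadowed

`DiffM n N r` is `Diff^r(N)` and `strongTop n N r` its `C^r` topology, `V n` is `ℝⁿ`
(`Pool/Agent/H718R2/G0.lean`), `OmegaStable`: `Ω`-stability (`Pool/Agent/TH80/OMS/Defs.lean`).
`ChartLip n N`: the distance of `N` is compatible with the smooth structure (good charts are
bi-Lipschitz near their centres, for instance a Riemannian distance; `Pool/Agent/Y368/CL/Met.lean`).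
-/

set_option autoImplicit false

open scoped Manifold ContDiff Topology

universe u

namespace Pool.Agent.Results.MP_4a0782_an.PeriodicShadowing

open Pool.Agent.H718R2.G Pool.Agent.TH80.OMS Pool.Agent.Y368.CL

/-- `F` is structurally stable in `Diff^r(N)`: all `G` in a neighbourhood of `F` are topologically
conjugate to `F`. -/
def StructStable (n : ℕ) (N : Type u) [TopologicalSpace N] [ChartedSpace (V n) N] (r : ℕ∞)
    (F : DiffM n N r) : Prop :=
  ∃ U : Set (DiffM n N r), IsOpen[strongTop n N r] U ∧ F ∈ U ∧ ∀ G ∈ U,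
    ∃ h : N ≃ₜ N, ∀ x, h (F x) = G (h x)

/-- `x 0, x 1, …, x m` is a periodic pseudo-orbit of `F` with jumps `≤ δ`. -/
def PseudoCycle {N : Type u} [MetricSpace N] (F : N → N) (m : ℕ) (δ : ℝ) (x : ℕ → N) : Prop :=
  x m = x 0 ∧ ∀ i < m, dist (F (x i)) (x (i + 1)) ≤ δ

/-- Let `N` be a closed manifold, `2 ≤ r ≤ ∞`, and let `F ∈ Diff^r(N)` be structurally stable or only
`Ω`-stable. There are constants `a, b > 0` such that every periodic pseudo-orbit `x` of `F`, of length
`m ≥ 1`, with jumps at most `δ ≤ exp(- a m)`, is shadowed by exactly one periodic orbit of this length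
with the accuracy `exp(b m) δ`: there is exactly one `p` with `F^m(p) = p` and
`dist (F^i(p)) (x i) ≤ exp(b m) δ` for `0 ≤ i ≤ m`. (No recurrence or hyperbolicity is assumed. For
instance, if `F^m(x)` has a distance `δ ≤ exp(- a m)` from `x`, for some point `x` of `N`, then
`F^m(p) = p` for some `p` at a distance at most `exp(b m) δ` from `x`.) -/
theorem result {n : ℕ} {N : Type u} [MetricSpace N] [CompactSpace N] [ChartedSpace (V n) N]
    [IsManifold (𝓡 n) ∞ N] (hN : ChartLip n N) (r : ℕ∞) (hr : 2 ≤ r) (F : DiffM n N r)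
    (hs : StructStable n N r F ∨ OmegaStable n N r F) :
    ∃ a b : ℝ, 0 < a ∧ 0 < b ∧ ∀ (m : ℕ) (δ : ℝ) (x : ℕ → N), 1 ≤ m →
      δ ≤ Real.exp (-(a * m)) → PseudoCycle F m δ x →
      ∃! p, F^[m] p = p ∧ ∀ i ≤ m, dist (F^[i] p) (x i) ≤ Real.exp (b * m) * δ := by
  have hF : OmegaStable n N r F := by
    rcases hs with ⟨U, hU, hFU, h⟩ | h
    · refine ⟨U, hU, hFU, fun G hG => ?_⟩
      obtain ⟨e, he⟩ := h G hG
      exact Pool.Agent.Y504.CO.omegaConj_of_conj e he
    · exact h
  obtain ⟨a, b, ha, hb, h⟩ := Pool.Agent.U882.RS.shadowing hr hN F hF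
  exact ⟨a, b, ha, hb, fun m δ x hm hδ hx => h m δ x hm hδ hx.1 hx.2⟩

end Pool.Agent.Results.MP_4a0782_an.PeriodicShadowing
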