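import Pool.Agent.U882.FW.Stab
import Pool.Agent.Y504.CO.SS

/-!
# Stable diffeomorphisms: periodic points are dense where the nonwandering set is thin

`DiffM n N r` is `Diff^r(N)` and `strongTop n N r` its `C^r` topology, `V n` is `ℝⁿ`, `IsRec f x`: `x` is
recurrent, `m ↦ f^m(x)` is not a homeomorphism of `ℤ` onto its image (`Pool/Agent/H718R2/G0.lean`).
`GoodChart n N χ z`: `χ` is a chart of the smooth structure of `N` with `χ z = 0` whose target contains
the closed unit ball (`Pool/Agent/W564/SC/Defs.lean`). `OmegaStable`, `Omega F`, `Per F`: `Ω`-stability, the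
nonwandering set, the set of the periodic points (`Pool/Agent/TH80/OMS/Defs.lean`, `SymDefs.lean`).
`OrbitClosure f x`: the closure of the orbit of `x`.

`Bal χ R`, `BalAt χ y R`: the balls `‖χ u‖ < R`, `‖χ u - χ y‖ < R` in the domain of the chart.
`NonWandIn F K u`: `u` is a nonwandering point of `F|K`. `Adm k p`: `p > 0` and
`2^(-p) + 3^(-p) + ⋯ + (k+1)^(-p) ≤ 1`; `AdmUpTo r p`: `Adm k p` for all finite `k ≤ r`.
`ThinNear p K χ`: for some `ρ > 0` and every `C` the part of `K` in the ball `Bal χ ρ` is covered by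
finitely many balls, say `s`, of a radius `ε < exp (- C (1 + log s) s^p)` (this holds if the lower
logarithmic box dimension `liminf log N(ε) / log log (1/ε)` of this part of `K` is less than `1/p`).
The laws `ProductLaw`, `VisitsLaw`, `CoverLaw`, `MeetsAnnuli` are in `Pool/Agent/U882/FW/DefsZ.lean` and
`Defs.lean`; the first two say that returns are slow in the number of the visits, the other two that all
relative nonwandering sets are large near the centre of the chart.
-/

set_option autoImplicit false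

open scoped Manifold ContDiff Topology

universe u

namespace Pool.Agent.Results.MP_4a0782_an.ThinNonwandering

open Pool.Agent.H718R2.G Pool.Agent.TH80.OMS Pool.Agent.W564.SC Pool.Agent.U882.FW

/-- `F` is structurally stable in `Diff^r(N)`: all `G` in a neighbourhood of `F` are topologically
conjugate to `F`. -/
def StructStable (n : ℕ) (N : Type u) [TopologicalSpace N] [ChartedSpace (V n) N] (r : ℕ∞)
    (F : DiffM n N r) : Prop :=
  ∃ U : Set (DiffM n N r), IsOpen[strongTop n N r] U ∧ F ∈ U ∧ ∀ G ∈ U,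
    ∃ h : N ≃ₜ N, ∀ x, h (F x) = G (h x)

/-- The laws of the returns and of the relative nonwandering sets hold near the centre of the chart,
for some finite order `2 ≤ k ≤ r`. -/
def AllLaws {n : ℕ} {N : Type u} [TopologicalSpace N] (r : ℕ∞) (F : N → N)
    (χ : OpenPartialHomeomorph N (V n)) : Prop :=
  ∃ (k : ℕ) (ρ₀ : ℝ), 2 ≤ k ∧ (k : ℕ∞) ≤ r ∧ 0 < ρ₀ ∧ ∀ ρ, 0 < ρ → ρ ≤ ρ₀ →
    ProductLaw F χ k ρ ∧ VisitsLaw F χ k ρ ∧ CoverLaw F χ k ρ ∧ ∃ C : ℝ, 0 < C ∧ MeetsAnnuli F χ k C ρ

/-- Nonwandering points `z` of the restriction of `F` to a closed set `K`, `F(K) ⊆ K`, such that the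
nonwandering set of `F|K` is `p`-thin near `z`, are limits of periodic points of `F`; and so are the
recurrent points whose orbit closure is `p`-thin near them. -/
def ThinDensity {n : ℕ} {N : Type u} [TopologicalSpace N] [ChartedSpace (V n) N] {r : ℕ∞}
    (F : DiffM n N r) (p : ℝ) : Prop :=
  ∀ (z : N) (χ : OpenPartialHomeomorph N (V n)), GoodChart n N χ z →
    (∀ K : Set N, IsClosed K → Set.MapsTo F K K → NonWandIn F K z →
      ThinNear p {u | NonWandIn F K u} χ → z ∈ closure (Per F)) ∧
    (IsRec F.toHomeomorph z → ThinNear p (OrbitClosure F.toHomeomorph z) χ → z ∈ closure (Per F))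

/-- `Ω(F) ∖ closure(Per(F))` is not `p`-thin near any of its points. -/
def ThickGap {n : ℕ} {N : Type u} [TopologicalSpace N] [ChartedSpace (V n) N] {r : ℕ∞}
    (F : DiffM n N r) (p : ℝ) : Prop :=
  ∀ z ∈ Omega F \ closure (Per F), ∀ χ : OpenPartialHomeomorph N (V n), GoodChart n N χ z →
    ¬ ThinNear p (Omega F \ closure (Per F)) χ

/-- Let `N` be a closed manifold, `2 ≤ r ≤ ∞`, and let `F ∈ Diff^r(N)` be structurally stable or only
`Ω`-stable; let `p` be an exponent which is admissible for all finite orders `≤ r`, for instance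
`p = 7/4` (any `r`, `r = ∞` included) or `p = 4/5` (`r = 2`).
(1) If `z` is a nonwandering point of the restriction of `F` to a closed set `K`, `F(K) ⊆ K`, and the
nonwandering set of `F|K` is `p`-thin near `z`, then `z` is a limit of periodic points of `F`. For
instance all recurrent points of `F` whose orbit closure is `p`-thin near them are limits of periodic
points.
(2) `Ω(F) ∖ closure(Per(F))` is not `p`-thin near any of its points; so the periodic points are dense in
`Ω(F)` if `Ω(F)` is `p`-thin near all its points.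
(3) Near every point outside `closure(Per(F))` the laws hold. -/
theorem result {n : ℕ} {N : Type u} [TopologicalSpace N] [T2Space N] [CompactSpace N]
    [ChartedSpace (V n) N] [IsManifold (𝓡 n) ∞ N] (r : ℕ∞) (hr : 2 ≤ r) (F : DiffM n N r)
    (hs : StructStable n N r F ∨ OmegaStable n N r F) :
    (∀ p, AdmUpTo r p → ThinDensity F p ∧ ThickGap F p) ∧
    (∀ z, z ∉ closure (Per F) → ∀ χ : OpenPartialHomeomorph N (V n), GoodChart n N χ z →
      AllLaws r F χ) ∧
    AdmUpTo r (7 / 4) ∧ AdmUpTo 2 (4 / 5) := by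
  have hF : OmegaStable n N r F := by
    rcases hs with ⟨U, hU, hFU, h⟩ | h
    · refine ⟨U, hU, hFU, fun G hG => ?_⟩
      obtain ⟨e, he⟩ := h G hG
      exact Pool.Agent.Y504.CO.omegaConj_of_conj e he
    · exact h
  have h1 : ∀ (z : N) (χ : OpenPartialHomeomorph N (V n)), GoodChart n N χ z → ∀ p, AdmUpTo r p →
      ∀ K : Set N, IsClosed K → Set.MapsTo F K K → NonWandIn F K z →
        ThinNear p {u | NonWandIn F K u} χ → z ∈ closure (Per F) := by
    intro z χ hχ p hp K hK hFK hz hthin
    by_contra hcon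
    obtain ⟨k, ρ₀, -, hkr, hρ₀, h⟩ := laws_of_stable hr hF hcon hχ
    exact not_thin_of_cover (hp k hkr) hρ₀ (fun ρ h1 h2 => (h ρ h1 h2).cover) hK hFK hχ.src
      hχ.zero hz one_pos (fun u _ hu => hu) hthin
  refine ⟨fun p hp => ⟨fun z χ hχ => ⟨h1 z χ hχ p hp, fun hz hthin => ?_⟩, ?_⟩, ?_, admUpTo_all r,
    admUpTo_two⟩
  · exact h1 z χ hχ p hp (OrbitClosure F.toHomeomorph z) isClosed_closure
      (mapsTo_orbitClosure F.toHomeomorph z) (nonWandIn_of_isRec F.toHomeomorph z hz)
      (hthin.mono fun u hu => hu.1)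
  · rintro z ⟨hzO, hz⟩ χ hχ
    obtain ⟨k, ρ₀, hk, hkr, hρ₀, h⟩ := laws_of_stable hr hF hz hχ
    obtain ⟨ρ₁, hρ₁, hdis⟩ := exists_ball_disjoint hχ.src hχ.zero hχ.ball _ isClosed_closure hz
    refine not_thin_of_cover (hp k hkr) hρ₀ (fun ρ h1 h2 => (h ρ h1 h2).cover) isClosed_univ
      (Set.mapsTo_univ _ _) hχ.src hχ.zero ((nonWandIn_univ _ z).mpr hzO) (ρ₁ := ρ₁) hρ₁ ?_
    intro u hu huN
    refine ⟨(nonWandIn_univ _ u).mp huN, ?_⟩
    exact Set.disjoint_left.mp hdis (Bal_mono (by linarith) hu)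
  · intro z hz χ hχ
    obtain ⟨k, ρ₀, hk, hkr, hρ₀, h⟩ := laws_of_stable hr hF hz hχ
    exact ⟨k, ρ₀, hk, hkr, hρ₀, fun ρ h1 h2 => ⟨(h ρ h1 h2).product, (h ρ h1 h2).visits,
      (h ρ h1 h2).cover, (h ρ h1 h2).annuli⟩⟩

end Pool.Agent.Results.MP_4a0782_an.ThinNonwandering
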